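import Pool.Agent.helper67.RG.Spec

namespace Pool.Agent.RG.DSM

open Matrix Polynomial Pool.Agent.GO Pool.Agent.AR Kronecker

universe u v

variable {F : Type u} [Field F]

/-- determinant of a block diagonal matrix -/
theorem det_bd {R : Type u} [CommRing R] {N : ℕ} {ι : Fin N → Type} [∀ i, Fintype (ι i)]
    [∀ i, DecidableEq (ι i)] (M : (i : Fin N) → Matrix (ι i) (ι i) R) :
    (Matrix.blockDiagonal' M).det = ∏ i, (M i).det := by
  rw [(Matrix.blockTriangular_blockDiagonal' M).det_fintype]
  apply Finset.prod_congr rfl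
  intro k _
  let E : ι k ≃ {x : (i : Fin N) × ι i // x.1 = k} := Equiv.ofBijective
    (fun p => ⟨⟨k, p⟩, rfl⟩) ⟨by
      intro p q h
      simpa using h, by
      rintro ⟨⟨i, p⟩, h⟩
      simp only at h
      subst h
      exact ⟨p, rfl⟩⟩
  rw [← Matrix.det_submatrix_equiv_self E]
  congr 1
  ext p q
  show (Matrix.blockDiagonal' M) ⟨k, p⟩ ⟨k, q⟩ = M k p q
  exact Matrix.blockDiagonal'_apply_eq _ _ _ _

/-- characteristic polynomial of a block diagonal matrix -/
theorem charpoly_bd {N : ℕ} {ι : Fin N → Type} [∀ i, Fintype (ι i)] [∀ i, DecidableEq (ι i)]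
    (M : (i : Fin N) → Matrix (ι i) (ι i) F) :
    (Matrix.blockDiagonal' M).charpoly = ∏ i, (M i).charpoly := by
  unfold Matrix.charpoly
  rw [← det_bd]
  congr 1
  ext ⟨i, p⟩ ⟨j, q⟩
  by_cases h : i = j
  · subst h
    rw [Matrix.charmatrix_apply, Matrix.blockDiagonal'_apply_eq, Matrix.blockDiagonal'_apply_eq,
      Matrix.charmatrix_apply]
    by_cases hpq : p = q
    · subst hpq; simp
    · rw [Matrix.diagonal_apply_ne _ hpq, Matrix.diagonal_apply_ne]
      intro h
      apply hpq
      simpa using h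
  · rw [Matrix.charmatrix_apply, Matrix.blockDiagonal'_apply_ne _ _ _ h,
      Matrix.blockDiagonal'_apply_ne _ _ _ h, Matrix.diagonal_apply_ne, map_zero, sub_zero]
    intro h'
    exact h (congrArg Sigma.fst h')

/-- the reindexing of the Kronecker product -/
def kEquiv {N : ℕ} {d : Fin N → ℕ} {m : Type} (e : ((i : Fin N) × Fin (d i)) ≃ m) :
    (Fin 2 × m) ≃ ((i : Fin N) × (Fin 2 × Fin (d i))) where
  toFun := fun x => ⟨(e.symm x.2).1, (x.1, (e.symm x.2).2)⟩
  invFun := fun y => (y.2.1, e ⟨y.1, y.2.2⟩)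
  left_inv := by
    rintro ⟨a, k⟩
    simp
  right_inv := by
    rintro ⟨i, a, p⟩
    show (⟨(e.symm (e ⟨i, p⟩)).1, (a, (e.symm (e ⟨i, p⟩)).2)⟩ :
      (i : Fin N) × (Fin 2 × Fin (d i))) = ⟨i, (a, p)⟩
    rw [Equiv.symm_apply_apply]

theorem DSM : DSM_stmt := by
  intro F Γ _ _ N d W
  let e : ((i : Fin N) × Fin (d i)) ≃ Fin (∑ i, d i) := finSigmaFinEquiv
  let V₀ : Γ →* Matrix (Fin (∑ i, d i)) (Fin (∑ i, d i)) F :=
    { toFun := fun g => Matrix.reindex e e (Matrix.blockDiagonal' fun i => W i g)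
      map_one' := by
        have h1 : (fun i => W i 1) = (1 : (i : Fin N) → Matrix (Fin (d i)) (Fin (d i)) F) := by
          funext i; rw [map_one]; rfl
        rw [h1, Matrix.blockDiagonal'_one]
        simp
      map_mul' := by
        intro g h
        have h1 : (fun i => W i (g * h)) = fun i => W i g * W i h := by
          funext i; rw [map_mul]
        rw [h1, Matrix.blockDiagonal'_mul]
        simp only [Matrix.reindex_apply]
        rw [Matrix.submatrix_mul_equiv] }
  have hV : ∀ g, V₀ g = Matrix.reindex e e (Matrix.blockDiagonal' fun i => W i g) := fun g => rfl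
  have hVa : ∀ g k l, V₀ g k l = (Matrix.blockDiagonal' fun i => W i g) (e.symm k) (e.symm l) :=
    fun g k l => rfl
  refine ⟨V₀, ?_, ?_, ?_, ?_⟩
  · intro g
    rw [hV, Matrix.charpoly_reindex, charpoly_bd]
  · intro g
    rw [hV]
    unfold Matrix.trace
    rw [← e.sum_comp]
    have h1 : ∀ x, (Matrix.reindex e e (Matrix.blockDiagonal' fun i => W i g)).diag (e x) =
        (W x.1 g) x.2 x.2 := by
      intro x
      rw [Matrix.diag_apply, Matrix.reindex_apply, Matrix.submatrix_apply, Equiv.symm_apply_apply]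
      exact Matrix.blockDiagonal'_apply_eq _ _ _ _
    rw [Finset.sum_congr rfl fun x _ => h1 x, Fintype.sum_sigma]
    rfl
  · intro A g
    have h1 : Matrix.reindex (kEquiv e) (kEquiv e) (A ⊗ₖ V₀ g) =
        Matrix.blockDiagonal' fun i => A ⊗ₖ W i g := by
      ext ⟨i, a, p⟩ ⟨j, b, q⟩
      rw [Matrix.reindex_apply, Matrix.submatrix_apply]
      show A a b * V₀ g (e ⟨i, p⟩) (e ⟨j, q⟩) = _
      rw [hVa, Equiv.symm_apply_apply, Equiv.symm_apply_apply]
      by_cases h : i = j
      · subst h
        rw [Matrix.blockDiagonal'_apply_eq, Matrix.blockDiagonal'_apply_eq]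
        rfl
      · rw [Matrix.blockDiagonal'_apply_ne _ _ _ h, Matrix.blockDiagonal'_apply_ne _ _ _ h,
          mul_zero]
    rw [← Matrix.charpoly_reindex (kEquiv e), h1, charpoly_bd]
  · intro k l
    by_cases h : (e.symm k).1 = (e.symm l).1
    · left
      refine ⟨(e.symm k).1, (e.symm k).2, h ▸ (e.symm l).2, ?_⟩
      intro g
      rw [hVa]
      generalize e.symm k = x at h
      generalize e.symm l = y at h
      obtain ⟨i, p⟩ := x
      obtain ⟨j, q⟩ := y
      simp only at h
      subst h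
      exact Matrix.blockDiagonal'_apply_eq _ _ _ _
    · right
      intro g
      rw [hVa]
      generalize e.symm k = x at h
      generalize e.symm l = y at h
      obtain ⟨i, p⟩ := x
      obtain ⟨j, q⟩ := y
      exact Matrix.blockDiagonal'_apply_ne _ _ _ h

end Pool.Agent.RG.DSM
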